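import Mathlib

/-!
Six matrices in `SL₂(ℤ[1/19])`: every nontrivial word in them has no nonzero fixed vector in `ℝ²`.
-/

set_option autoImplicit false

namespace Pool.Agent.Y159.Sq

open Matrix

/-- The letters. -/
abbrev Lt : Type := Fin 6 × Bool

/-- Six integral matrices of determinant `19 ^ 2`, and their adjugates. -/
def Ni : Lt → Matrix (Fin 2) (Fin 2) ℤ
  | (i, true) => (![!![15, -1; 1, 24], !![16, -5; 5, 21], !![17, -3; 7, 20],
      !![17, -1; -13, 22], !![23, -10; -3, 17], !![25, -13; -3, 16]] : Fin 6 → _) i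
  | (i, false) => (![!![24, 1; -1, 15], !![21, 5; -5, 16], !![20, 3; -7, 17],
      !![22, 1; 13, 17], !![17, 10; 3, 23], !![16, 13; 3, 25]] : Fin 6 → _) i

/-- Column vectors modulo `19`. -/
def uu : Lt → Fin 2 → ZMod 19
  | (i, true) => (![![15, 1], ![16, 5], ![17, 7], ![17, 6], ![4, 16], ![6, 16]] : Fin 6 → _) i
  | (i, false) => (![![5, 18], ![2, 14], ![1, 12], ![3, 13], ![17, 3], ![16, 3]] : Fin 6 → _) i

/-- Row vectors modulo `19`. -/
def vv : Lt → Fin 2 → ZMod 19
  | (i, true) => (![![1, 5], ![1, 8], ![1, 11], ![1, 10], ![1, 7], ![1, 1]] : Fin 6 → _) i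
  | (i, false) => (![![1, 4], ![1, 12], ![1, 3], ![1, 13], ![1, 14], ![1, 2]] : Fin 6 → _) i

theorem Ni_mod (e : Lt) (i j : Fin 2) : ((Ni e i j : ℤ) : ZMod 19) = uu e i * vv e j := by
  revert e i j; decide

/-- The pairing. -/
def pr (e f : Lt) : ZMod 19 := vv e 0 * uu f 0 + vv e 1 * uu f 1

theorem pr_ne (e f : Lt) (h : e.1 = f.1 → e.2 = f.2) : pr e f ≠ 0 := by
  revert e f; decide

theorem Ni_det (e : Lt) : (Ni e).det = 361 := by
  rw [det_fin_two]; revert e; decide

theorem Ni_adj (i : Fin 6) : Ni (i, false) = (Ni (i, true)).adjugate := by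
  rw [adjugate_fin_two]; revert i; decide

/-- The product of a word. -/
def PP (L : List Lt) : Matrix (Fin 2) (Fin 2) ℤ := (L.map Ni).prod

/-- The reduction modulo `19` of the product of a reduced word. -/
theorem PP_mod : ∀ (L : List Lt) (a : Lt), FreeGroup.IsReduced (a :: L) →
    ∃ c : ZMod 19, c ≠ 0 ∧ ∀ i j : Fin 2, ((PP (a :: L) i j : ℤ) : ZMod 19) =
      c * (uu a i * vv ((a :: L).getLast (List.cons_ne_nil _ _)) j) := by
  have : Fact (Nat.Prime 19) := ⟨by norm_num⟩
  intro L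
  induction L with
  | nil =>
    intro a _
    refine ⟨1, one_ne_zero, fun i j => ?_⟩
    simp [PP, Ni_mod]
  | cons b L ih =>
    intro a h
    rw [FreeGroup.IsReduced, List.isChain_cons_cons] at h
    obtain ⟨hab, hb⟩ := h
    obtain ⟨c, hc, hcc⟩ := ih b hb
    refine ⟨c * pr a b, mul_ne_zero hc (pr_ne a b hab), fun i j => ?_⟩
    have h1 : PP (a :: b :: L) = Ni a * PP (b :: L) := by simp [PP]
    rw [h1, mul_apply, Fin.sum_univ_two]
    push_cast
    rw [hcc, hcc, Ni_mod, Ni_mod, List.getLast_cons (List.cons_ne_nil b L)]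
    unfold pr
    ring

theorem PP_trace (L : List Lt) (hL : L ≠ []) (h : FreeGroup.IsCyclicallyReduced L) :
    ¬ (19 : ℤ) ∣ (PP L).trace := by
  have : Fact (Nat.Prime 19) := ⟨by norm_num⟩
  obtain ⟨a, L', rfl⟩ := List.exists_cons_of_ne_nil hL
  obtain ⟨c, hc, hcc⟩ := PP_mod L' a h.1
  intro hd
  have h1 := (ZMod.intCast_zmod_eq_zero_iff_dvd _ 19).2 hd
  rw [trace_fin_two] at h1
  push_cast at h1
  rw [hcc, hcc] at h1
  set b := (a :: L').getLast (List.cons_ne_nil _ _) with hb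
  have h2 : c * pr b a = 0 := by rw [← h1]; unfold pr; ring
  rcases mul_eq_zero.1 h2 with h3 | h3
  · exact hc h3
  · refine pr_ne b a ?_ h3
    refine h.2 b ?_ a (by simp)
    rw [hb, List.getLast?_eq_getLast_of_ne_nil (List.cons_ne_nil _ _)]
    simp

/-- The matrices with real entries. -/
noncomputable def Sr (e : Lt) : Matrix.SpecialLinearGroup (Fin 2) ℝ :=
  ⟨(19 : ℝ)⁻¹ • (Ni e).map (Int.cast : ℤ → ℝ), by
    have h := congrArg (Int.cast : ℤ → ℝ) (Ni_det e)
    rw [det_fin_two] at h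
    rw [det_fin_two]
    simp only [Matrix.smul_apply, map_apply, smul_eq_mul]
    push_cast at h
    linear_combination (19 : ℝ)⁻¹ ^ 2 * h⟩

theorem Sr_inv (i : Fin 6) : (Sr (i, true))⁻¹ = Sr (i, false) := by
  ext a b
  rw [Matrix.SpecialLinearGroup.coe_inv]
  simp only [Sr, adjugate_fin_two, Matrix.smul_apply, map_apply, smul_eq_mul]
  rw [Ni_adj, adjugate_fin_two]
  fin_cases a <;> fin_cases b <;> simp

/-- The homomorphism from the free group. -/
noncomputable def rho : FreeGroup (Fin 6) →* Matrix.SpecialLinearGroup (Fin 2) ℝ :=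
  FreeGroup.lift fun i => Sr (i, true)

theorem rho_letter (e : Lt) : rho (FreeGroup.mk [e]) = Sr e := by
  obtain ⟨i, b⟩ := e
  cases b
  · simp [rho, FreeGroup.lift_mk, Sr_inv]
  · simp [rho, FreeGroup.lift_mk]

theorem rho_mk (L : List Lt) : (rho (FreeGroup.mk L) : Matrix (Fin 2) (Fin 2) ℝ) =
    (19 : ℝ)⁻¹ ^ L.length • (PP L).map (Int.cast : ℤ → ℝ) := by
  induction L with
  | nil =>
    have : (FreeGroup.mk [] : FreeGroup (Fin 6)) = 1 := rfl
    rw [this, map_one]
    simp [PP]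
  | cons a L ih =>
    have h1 : FreeGroup.mk (a :: L) = FreeGroup.mk [a] * FreeGroup.mk L := by
      rw [FreeGroup.mul_mk]; rfl
    have h2 : PP (a :: L) = Ni a * PP L := by simp [PP]
    rw [h1, map_mul, Matrix.SpecialLinearGroup.coe_mul, ih, rho_letter, h2]
    have h3 : (Ni a * PP L).map (Int.cast : ℤ → ℝ) =
        (Ni a).map (Int.cast : ℤ → ℝ) * (PP L).map (Int.cast : ℤ → ℝ) :=
      Matrix.map_mul (f := Int.castRingHom ℝ)
    rw [h3]
    simp only [Sr, List.length_cons, smul_mul_smul_comm]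
    rw [pow_succ']

theorem trace_ne_two (g : FreeGroup (Fin 6)) (hg : g ≠ 1) :
    (rho g : Matrix (Fin 2) (Fin 2) ℝ).trace ≠ 2 := by
  have h0 := FreeGroup.reduceCyclically.conj_conjugator_reduceCyclically g.toWord
  set L := FreeGroup.reduceCyclically g.toWord with hL
  set C := FreeGroup.reduceCyclically.conjugator g.toWord with hC
  have hcr : FreeGroup.IsCyclicallyReduced L :=
    FreeGroup.reduceCyclically.isCyclicallyReduced FreeGroup.isReduced_toWord
  have hg1 : g = FreeGroup.mk C * FreeGroup.mk L * (FreeGroup.mk C)⁻¹ := by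
    rw [FreeGroup.inv_mk, FreeGroup.mul_mk, FreeGroup.mul_mk, h0, FreeGroup.mk_toWord]
  have hL0 : L ≠ [] := by
    intro h
    apply hg
    rw [hg1, h]
    have : (FreeGroup.mk [] : FreeGroup (Fin 6)) = 1 := rfl
    rw [this, mul_one, mul_inv_cancel]
  have htr : (rho g : Matrix (Fin 2) (Fin 2) ℝ).trace =
      (rho (FreeGroup.mk L) : Matrix (Fin 2) (Fin 2) ℝ).trace := by
    rw [hg1, map_mul, map_mul, map_inv, Matrix.SpecialLinearGroup.coe_mul, Matrix.trace_mul_comm,
      ← Matrix.SpecialLinearGroup.coe_mul, ← mul_assoc, inv_mul_cancel, one_mul]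
  rw [htr, rho_mk, trace_smul, trace_fin_two]
  intro h
  simp only [map_apply, smul_eq_mul] at h
  have h19 : (19 : ℝ) ^ L.length ≠ 0 := pow_ne_zero _ (by norm_num)
  have h2 : (((PP L).trace : ℤ) : ℝ) = 2 * 19 ^ L.length := by
    rw [trace_fin_two]
    push_cast
    rw [inv_pow] at h
    field_simp at h
    linarith
  have h3 : (PP L).trace = 2 * 19 ^ L.length := by exact_mod_cast h2
  refine PP_trace L hL0 hcr ?_
  rw [h3]
  have hpos : L.length ≠ 0 := by
    intro h; exact hL0 (List.length_eq_zero_iff.1 h)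
  exact Dvd.dvd.mul_left (dvd_pow_self _ hpos) _

theorem free_act (g : FreeGroup (Fin 6)) (hg : g ≠ 1) (v : Fin 2 → ℝ) (hv : v ≠ 0) :
    (rho g : Matrix (Fin 2) (Fin 2) ℝ) *ᵥ v ≠ v := by
  intro h
  have h1 : ((rho g : Matrix (Fin 2) (Fin 2) ℝ) - 1).det = 0 := by
    rw [← Matrix.exists_mulVec_eq_zero_iff]
    exact ⟨v, hv, by rw [sub_mulVec, h, one_mulVec, sub_self]⟩
  have h2 : (rho g : Matrix (Fin 2) (Fin 2) ℝ).det = 1 := (rho g).2
  apply trace_ne_two g hg
  rw [det_fin_two] at h1 h2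
  rw [trace_fin_two]
  simp only [Matrix.sub_apply, one_apply_eq, one_apply_ne (show (0 : Fin 2) ≠ 1 by decide),
    one_apply_ne (show (1 : Fin 2) ≠ 0 by decide)] at h1
  linarith

end Pool.Agent.Y159.Sq
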