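import Mathlib

/-!
A set on which a free group acts freely, and each point of which stays in the set under three
letters with different indices, is paradoxical.
-/

set_option autoImplicit false

namespace Pool.Agent.Y159.Sq

open FreeGroup

universe u v

variable {ι : Type u} {X : Type v} [DecidableEq ι]

theorem toWord_letter_mul (e : ι × Bool) (w : FreeGroup ι)
    (h : ∀ t, w.toWord ≠ (e.1, !e.2) :: t) : (mk [e] * w).toWord = e :: w.toWord := by
  have h1 : mk [e] * w = mk (e :: w.toWord) := by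
    conv_lhs => rw [← mk_toWord (x := w), mul_mk]
    rfl
  rw [h1, toWord_mk]
  refine FreeGroup.IsReduced.reduce_eq ?_
  rw [FreeGroup.IsReduced]
  have h2 : FreeGroup.IsReduced w.toWord := isReduced_toWord
  cases hw : w.toWord with
  | nil => exact List.isChain_singleton _
  | cons f t =>
    rw [List.isChain_cons_cons]
    refine ⟨fun h3 => ?_, by rw [← hw]; exact h2⟩
    by_contra h4
    apply h t
    rw [hw]
    congr 1
    ext
    · exact h3.symm
    · have : f.2 = !e.2 := by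
        cases h5 : f.2 <;> cases h6 : e.2 <;> simp_all
      exact this

/-- The data of a paradoxical decomposition. -/
theorem paradox [Nonempty ι] (a : FreeGroup ι → X → X) (a_one : ∀ x, a 1 x = x)
    (a_mul : ∀ g h x, a (g * h) x = a g (a h x)) (Q : Set X)
    (hfree : ∀ g : FreeGroup ι, g ≠ 1 → ∀ x ∈ Q, a g x ≠ x)
    (hl : ∀ x ∈ Q, ∃ l : Fin 3 → ι × Bool, (∀ j j', j ≠ j' → (l j).1 ≠ (l j').1) ∧
      ∀ j, a (mk [l j]) x ∈ Q) :
    ∃ t₁ t₂ : X → ι × Bool,
      (∀ x ∈ Q, a (mk [t₁ x]) x ∈ Q ∧ a (mk [t₂ x]) x ∈ Q) ∧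
      (∀ x ∈ Q, ∀ y ∈ Q, a (mk [t₁ x]) x = a (mk [t₁ y]) y → x = y) ∧
      (∀ x ∈ Q, ∀ y ∈ Q, a (mk [t₂ x]) x = a (mk [t₂ y]) y → x = y) ∧
      (∀ x ∈ Q, ∀ y ∈ Q, a (mk [t₁ x]) x ≠ a (mk [t₂ y]) y) := by
  classical
  let S : Setoid X :=
    { r := fun x y => ∃ g, a g x = y
      iseqv := ⟨fun x => ⟨1, a_one x⟩, fun {x y} ⟨g, h⟩ => ⟨g⁻¹, by
        rw [← h, ← a_mul, inv_mul_cancel, a_one]⟩, fun {x y z} ⟨g, h⟩ ⟨g', h'⟩ => ⟨g' * g, by
        rw [a_mul, h, h']⟩⟩ }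
  let rep : X → X := fun x => (Quotient.mk S x).out
  have hrep : ∀ x, ∃ g, a g (rep x) = x := fun x => Quotient.exact (Quotient.out_eq (Quotient.mk S x))
  choose w hw using hrep
  have hrep_eq : ∀ (x : X) (g : FreeGroup ι), rep (a g x) = rep x := by
    intro x g
    have : Quotient.mk S (a g x) = Quotient.mk S x := Quotient.sound ⟨g⁻¹, by
      rw [← a_mul, inv_mul_cancel, a_one]⟩
    change (Quotient.mk S (a g x)).out = (Quotient.mk S x).out
    rw [this]
  -- uniqueness of the group element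
  have huniq : ∀ x ∈ Q, ∀ g h : FreeGroup ι, a g (rep x) = a h (rep x) → g = h := by
    intro x hx g h he
    by_contra hne
    have h1 : w x * (h⁻¹ * g) * (w x)⁻¹ ≠ 1 := by
      intro h2
      apply hne
      have h3 : h⁻¹ * g = 1 := by
        have := congrArg (fun z => (w x)⁻¹ * z * w x) h2
        simpa [mul_assoc] using this
      have h4 := congrArg (fun z => h * z) h3
      simpa using h4
    refine hfree _ h1 x hx ?_
    have h2 : a (w x)⁻¹ x = rep x := by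
      have h3 := congrArg (a (w x)⁻¹) (hw x)
      rw [← a_mul, inv_mul_cancel, a_one] at h3
      exact h3.symm
    have h3 : a (h⁻¹ * g) (rep x) = rep x := by
      rw [a_mul, he, ← a_mul, inv_mul_cancel, a_one]
    rw [a_mul, a_mul, h2, h3, hw]
  -- two good letters
  have htwo : ∀ x ∈ Q, ∃ t : (ι × Bool) × (ι × Bool), t.1 ≠ t.2 ∧
      (a (mk [t.1]) x ∈ Q ∧ ∀ s, (w x).toWord ≠ (t.1.1, !t.1.2) :: s) ∧
      (a (mk [t.2]) x ∈ Q ∧ ∀ s, (w x).toWord ≠ (t.2.1, !t.2.2) :: s) := by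
    intro x hx
    obtain ⟨l, hl1, hl2⟩ := hl x hx
    have key : ∀ j j', j ≠ j' → (∀ s, (w x).toWord ≠ ((l j).1, !(l j).2) :: s) ∨
        (∀ s, (w x).toWord ≠ ((l j').1, !(l j').2) :: s) := by
      intro j j' hj
      by_contra h
      push Not at h
      obtain ⟨⟨s, hs⟩, ⟨s', hs'⟩⟩ := h
      rw [hs] at hs'
      have h5 := List.head_eq_of_cons_eq hs'
      exact hl1 j j' hj (congrArg Prod.fst h5 : _)
    have hne : ∀ j j', j ≠ j' → l j ≠ l j' := fun j j' hj h => hl1 j j' hj (congrArg Prod.fst h)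
    by_cases h0 : ∀ s, (w x).toWord ≠ ((l 0).1, !(l 0).2) :: s
    · rcases key 1 2 (by decide) with h1 | h1
      · exact ⟨(l 0, l 1), hne 0 1 (by decide), ⟨hl2 0, h0⟩, ⟨hl2 1, h1⟩⟩
      · exact ⟨(l 0, l 2), hne 0 2 (by decide), ⟨hl2 0, h0⟩, ⟨hl2 2, h1⟩⟩
    · have h1 := (key 0 1 (by decide)).resolve_left h0
      have h2 := (key 0 2 (by decide)).resolve_left h0
      exact ⟨(l 1, l 2), hne 1 2 (by decide), ⟨hl2 1, h1⟩, ⟨hl2 2, h2⟩⟩
  -- injectivity
  have hinj : ∀ x ∈ Q, ∀ y ∈ Q, ∀ e f : ι × Bool, (∀ s, (w x).toWord ≠ (e.1, !e.2) :: s) →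
      (∀ s, (w y).toWord ≠ (f.1, !f.2) :: s) → a (mk [e]) x = a (mk [f]) y → x = y ∧ e = f := by
    intro x hx y hy e f he hf h
    have hr : rep x = rep y := by rw [← hrep_eq x (mk [e]), h, hrep_eq]
    have h1 : a (mk [e] * w x) (rep x) = a (mk [f] * w y) (rep x) := by
      rw [a_mul, hw, a_mul, hr, hw, h]
    have h2 := huniq x hx _ _ h1
    have h3 := congrArg toWord h2
    rw [toWord_letter_mul e _ he, toWord_letter_mul f _ hf] at h3
    obtain ⟨h4, h5⟩ := List.cons_eq_cons.1 h3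
    refine ⟨?_, h4⟩
    rw [← hw x, ← hw y, hr, toWord_injective h5]
  choose! t ht using htwo
  refine ⟨fun x => (t x).1, fun x => (t x).2, fun x hx => ⟨(ht x hx).2.1.1, (ht x hx).2.2.1⟩,
    fun x hx y hy h => (hinj x hx y hy _ _ (ht x hx).2.1.2 (ht y hy).2.1.2 h).1,
    fun x hx y hy h => (hinj x hx y hy _ _ (ht x hx).2.2.2 (ht y hy).2.2.2 h).1,
    fun x hx y hy h => ?_⟩
  obtain ⟨h1, h2⟩ := hinj x hx y hy _ _ (ht x hx).2.1.2 (ht y hy).2.2.2 h
  subst h1
  exact (ht x hx).1 h2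

end Pool.Agent.Y159.Sq
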