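import Pool.Agent.Y159.Sq.Free
import Pool.Agent.Y159.Sq.Orb

/-!
The open unit square is paradoxical under `SL₂(ℝ)`.
-/

set_option autoImplicit false

namespace Pool.Agent.Y159.Sq

open Matrix

/-- The open unit square. -/
def QQ : Set (Fin 2 → ℝ) := {v : Fin 2 → ℝ | ∀ k, 0 < v k ∧ v k < 1}

theorem mem_QQ (v : Fin 2 → ℝ) : v ∈ QQ ↔ (0 < v 0 ∧ v 0 < 1) ∧ (0 < v 1 ∧ v 1 < 1) := by
  simp [QQ, Fin.forall_fin_two]

/-- The action. -/
noncomputable def act (g : FreeGroup (Fin 6)) (v : Fin 2 → ℝ) : Fin 2 → ℝ :=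
  (rho g : Matrix (Fin 2) (Fin 2) ℝ) *ᵥ v

theorem act_one (v : Fin 2 → ℝ) : act 1 v = v := by simp [act]

theorem act_mul (g h : FreeGroup (Fin 6)) (v : Fin 2 → ℝ) : act (g * h) v = act g (act h v) := by
  unfold act
  rw [map_mul, Matrix.SpecialLinearGroup.coe_mul, mulVec_mulVec]

theorem act_letter (e : Lt) (v : Fin 2 → ℝ) (i : Fin 2) :
    act (FreeGroup.mk [e]) v i = (19 : ℝ)⁻¹ * ((Ni e i 0 : ℤ) * v 0 + (Ni e i 1 : ℤ) * v 1) := by
  unfold act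
  rw [rho_letter]
  simp only [Sr, mulVec, dotProduct, Fin.sum_univ_two, Matrix.smul_apply, map_apply, smul_eq_mul]
  ring

theorem stay (e : Lt) (v : Fin 2 → ℝ)
    (h1 : 0 < (Ni e 0 0 : ℤ) * v 0 + (Ni e 0 1 : ℤ) * v 1)
    (h2 : (Ni e 0 0 : ℤ) * v 0 + (Ni e 0 1 : ℤ) * v 1 < 19)
    (h3 : 0 < (Ni e 1 0 : ℤ) * v 0 + (Ni e 1 1 : ℤ) * v 1)
    (h4 : (Ni e 1 0 : ℤ) * v 0 + (Ni e 1 1 : ℤ) * v 1 < 19) :
    act (FreeGroup.mk [e]) v ∈ QQ := by
  rw [mem_QQ, act_letter, act_letter]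
  refine ⟨⟨by positivity, ?_⟩, ⟨by positivity, ?_⟩⟩ <;> linarith

theorem three (v : Fin 2 → ℝ) (hv : v ∈ QQ) :
    ∃ l : Fin 3 → Lt, (∀ j j', j ≠ j' → (l j).1 ≠ (l j').1) ∧
      ∀ j, act (FreeGroup.mk [l j]) v ∈ QQ := by
  rw [mem_QQ] at hv
  obtain ⟨⟨a1, a2⟩, ⟨b1, b2⟩⟩ := hv
  by_cases hc : 3 / 5 ≤ v 0 ∧ 3 / 5 ≤ v 1
  · obtain ⟨c1, c2⟩ := hc
    refine ⟨![(3, true), (4, true), (5, true)], by decide, fun j => ?_⟩
    fin_cases j
    all_goals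
      apply stay <;> simp [Ni] <;> linarith
  · have h0 : ∃ b : Bool, act (FreeGroup.mk [((0 : Fin 6), b)]) v ∈ QQ := by
      by_cases h : 15 * v 0 - v 1 > 0 ∧ v 0 + 24 * v 1 < 19
      · refine ⟨true, ?_⟩
        obtain ⟨h1, h2⟩ := h
        apply stay <;> simp [Ni] <;> linarith
      · refine ⟨false, ?_⟩
        rw [not_and_or, not_lt, not_lt] at h
        rw [not_and_or, not_le, not_le] at hc
        rcases h with h | h <;> rcases hc with hc | hc <;>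
          (apply stay <;> simp [Ni] <;> linarith)
    have h1 : ∃ b : Bool, act (FreeGroup.mk [((1 : Fin 6), b)]) v ∈ QQ := by
      by_cases h : 16 * v 0 - 5 * v 1 > 0 ∧ 5 * v 0 + 21 * v 1 < 19
      · refine ⟨true, ?_⟩
        obtain ⟨h1, h2⟩ := h
        apply stay <;> simp [Ni] <;> linarith
      · refine ⟨false, ?_⟩
        rw [not_and_or, not_lt, not_lt] at h
        rw [not_and_or, not_le, not_le] at hc
        rcases h with h | h <;> rcases hc with hc | hc <;>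
          (apply stay <;> simp [Ni] <;> linarith)
    have h2 : ∃ b : Bool, act (FreeGroup.mk [((2 : Fin 6), b)]) v ∈ QQ := by
      by_cases h : 17 * v 0 - 3 * v 1 > 0 ∧ 7 * v 0 + 20 * v 1 < 19
      · refine ⟨true, ?_⟩
        obtain ⟨h1, h2⟩ := h
        apply stay <;> simp [Ni] <;> linarith
      · refine ⟨false, ?_⟩
        rw [not_and_or, not_lt, not_lt] at h
        rw [not_and_or, not_le, not_le] at hc
        rcases h with h | h <;> rcases hc with hc | hc <;>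
          (apply stay <;> simp [Ni] <;> linarith)
    obtain ⟨b0, h0⟩ := h0
    obtain ⟨b1, h1⟩ := h1
    obtain ⟨b2, h2⟩ := h2
    refine ⟨![(0, b0), (1, b1), (2, b2)], ?_, fun j => ?_⟩
    · intro j j' hj
      fin_cases j <;> fin_cases j' <;> simp_all
    · fin_cases j
      · exact h0
      · exact h1
      · exact h2

theorem decomposition :
    ∃ (n m : ℕ) (A : Fin n → Set (Fin 2 → ℝ)) (B : Fin m → Set (Fin 2 → ℝ))
      (g : Fin n → Matrix.SpecialLinearGroup (Fin 2) ℝ)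
      (h : Fin m → Matrix.SpecialLinearGroup (Fin 2) ℝ),
      (∀ i, A i ⊆ {v : Fin 2 → ℝ | ∀ k, 0 < v k ∧ v k < 1}) ∧
      (∀ j, B j ⊆ {v : Fin 2 → ℝ | ∀ k, 0 < v k ∧ v k < 1}) ∧
      Pairwise (fun i i' => Disjoint (A i) (A i')) ∧
      Pairwise (fun j j' => Disjoint (B j) (B j')) ∧
      (∀ i j, Disjoint (A i) (B j)) ∧
      (⋃ i, (fun v => Matrix.mulVec ((g i : Matrix (Fin 2) (Fin 2) ℝ)) v) '' A i)
        = {v : Fin 2 → ℝ | ∀ k, 0 < v k ∧ v k < 1} ∧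
      (⋃ j, (fun v => Matrix.mulVec ((h j : Matrix (Fin 2) (Fin 2) ℝ)) v) '' B j)
        = {v : Fin 2 → ℝ | ∀ k, 0 < v k ∧ v k < 1} := by
  obtain ⟨t₁, t₂, hQ, i1, i2, i3⟩ := paradox act act_one act_mul QQ
    (fun g hg x hx => free_act g hg x (by
      rintro rfl
      exact lt_irrefl _ ((mem_QQ _).1 hx).1.1)) three
  let e : Fin 12 ≃ Lt := (Fintype.equivFinOfCardEq (by simp)).symm
  let P : ((Fin 2 → ℝ) → Lt) → Fin 12 → Set (Fin 2 → ℝ) := fun t k =>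
    {y | ∃ x ∈ QQ, t x = e k ∧ act (FreeGroup.mk [t x]) x = y}
  let G : Fin 12 → Matrix.SpecialLinearGroup (Fin 2) ℝ := fun k => rho (FreeGroup.mk [e k])⁻¹
  have hP : ∀ t : (Fin 2 → ℝ) → Lt, (∀ x ∈ QQ, act (FreeGroup.mk [t x]) x ∈ QQ) →
      ∀ k, P t k ⊆ QQ := by
    rintro t ht k y ⟨x, hx, _, rfl⟩
    exact ht x hx
  have hD : ∀ t : (Fin 2 → ℝ) → Lt, (∀ x ∈ QQ, ∀ y ∈ QQ, act (FreeGroup.mk [t x]) x =
      act (FreeGroup.mk [t y]) y → x = y) → Pairwise (fun i i' => Disjoint (P t i) (P t i')) := by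
    intro t ht i j hij
    rw [Set.disjoint_left]
    rintro z ⟨x, hx, h1, rfl⟩ ⟨y, hy, h2, h3⟩
    have := ht y hy x hx h3
    subst this
    exact hij (e.injective (h1.symm.trans h2))
  have hU : ∀ t : (Fin 2 → ℝ) → Lt,
      (⋃ k, (fun v => Matrix.mulVec ((G k : Matrix (Fin 2) (Fin 2) ℝ)) v) '' P t k) = QQ := by
    intro t
    ext z
    simp only [Set.mem_iUnion, Set.mem_image]
    constructor
    · rintro ⟨k, y, ⟨x, hx, h1, rfl⟩, rfl⟩
      have : act (FreeGroup.mk [e k])⁻¹ (act (FreeGroup.mk [t x]) x) = x := by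
        rw [h1, ← act_mul, inv_mul_cancel, act_one]
      change act (FreeGroup.mk [e k])⁻¹ (act (FreeGroup.mk [t x]) x) ∈ QQ
      rwa [this]
    · intro hz
      refine ⟨e.symm (t z), act (FreeGroup.mk [t z]) z, ⟨z, hz, by simp, rfl⟩, ?_⟩
      change act (FreeGroup.mk [e (e.symm (t z))])⁻¹ (act (FreeGroup.mk [t z]) z) = z
      rw [Equiv.apply_symm_apply, ← act_mul, inv_mul_cancel, act_one]
  refine ⟨12, 12, P t₁, P t₂, G, G, hP t₁ fun x hx => (hQ x hx).1, hP t₂ fun x hx => (hQ x hx).2,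
    hD t₁ i1, hD t₂ i2, ?_, hU t₁, hU t₂⟩
  intro i j
  rw [Set.disjoint_left]
  rintro z ⟨x, hx, _, rfl⟩ ⟨y, hy, _, h⟩
  exact i3 x hx y hy h.symm

end Pool.Agent.Y159.Sq
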